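import Pool.Agent.MP_5499e5_ag.S.StmW
import Pool.Agent.MP_5499e5_ag.W.Hom

set_option autoImplicit false

namespace Pool.Agent.MP_5499e5_ag.S

open MvPolynomial Pool.Agent.MP_5499e5_ag.W

section

variable {N : ℕ} {K : Type} [Field K]

/-- Dehomogenisation. -/
noncomputable def deh_Brid (N : ℕ) (K : Type) [Field K] :
    MvPolynomial (Fin (N + 1)) K →ₐ[K] A N K :=
  aeval (Fin.cons 1 X : Fin (N + 1) → A N K)

theorem inj_Brid {d : ℕ} {f : MvPolynomial (Fin (N + 1)) K} (hf : f.IsHomogeneous d)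
    (hg : deh_Brid N K f = 0) : f = 0 := by
  let B := FractionRing (MvPolynomial (Fin (N + 1)) K)
  let ι : MvPolynomial (Fin (N + 1)) K →ₐ[K] B := IsScalarTower.toAlgHom K _ B
  have hι : Function.Injective ι := IsFractionRing.injective (MvPolynomial (Fin (N + 1)) K) B
  have hX : ι (X 0) ≠ 0 := fun h => X_ne_zero (R := K) (0 : Fin (N + 1)) (hι (by rw [h, map_zero]))
  have h1 := scale_Hom hf (ι (X 0))
    (Fin.cons 1 (fun u : Fin N => ι (X u.succ) / ι (X 0)) : Fin (N + 1) → B)
  rw [deh_Brid] at hg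
  rw [← comp_Hom, hg, map_zero, mul_zero] at h1
  have h2 : (fun u : Fin (N + 1) => ι (X 0) *
      (Fin.cons 1 (fun u : Fin N => ι (X u.succ) / ι (X 0)) : Fin (N + 1) → B) u) =
      fun u => ι (X u) := by
    funext u
    refine Fin.cases ?_ (fun v => ?_) u
    · simp
    · rw [Fin.cons_succ, mul_div_cancel₀ _ hX]
  rw [h2, ← comp_aeval, aeval_X_left, AlgHom.comp_id] at h1
  exact hι (by rw [h1, map_zero])

theorem deg_Brid {d : ℕ} {f : MvPolynomial (Fin (N + 1)) K} (hf : f.IsHomogeneous d) :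
    (deh_Brid N K f).totalDegree ≤ d := by
  refine le_trans ?_ hf.totalDegree_le
  rw [deh_Brid]
  conv_lhs => rw [f.as_sum, map_sum]
  refine (totalDegree_finsetSum _ _).trans (Finset.sup_le fun α hα => ?_)
  rw [aeval_monomial]
  refine (totalDegree_mul _ _).trans ?_
  rw [algebraMap_eq, totalDegree_C, zero_add, Finsupp.prod]
  refine (totalDegree_finsetProd _ _).trans (le_trans ?_ (le_totalDegree hα))
  refine Finset.sum_le_sum fun u _ => (totalDegree_pow _ _).trans ?_
  have : ((Fin.cons 1 X : Fin (N + 1) → A N K) u).totalDegree ≤ 1 := by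
    refine Fin.cases ?_ (fun v => ?_) u <;> simp
  nlinarith

theorem mem_Brid {d : ℕ} {f : MvPolynomial (Fin (N + 1)) K} (hf : f.IsHomogeneous d)
    (P : Fin (N + 1) → K) (n : ℕ) (hP : P 0 ≠ 0) (hn : f ∈ RingHom.ker (eval P) ^ n) :
    deh_Brid N K f ∈ mx (fun u : Fin N => P u.succ / P 0) ^ n := by
  let ψ : MvPolynomial (Fin (N + 1)) K →ₐ[K] A N K :=
    aeval fun u => C (P 0) * (Fin.cons 1 X : Fin (N + 1) → A N K) u
  have h1 : ∀ h : MvPolynomial (Fin (N + 1)) K,
      eval (fun u : Fin N => P u.succ / P 0) (ψ h) = eval P h := by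
    intro h
    induction h using MvPolynomial.induction_on with
    | C a => simp [ψ]
    | add a b ha hb => rw [map_add, map_add, map_add, ha, hb]
    | mul_X a u ha =>
      rw [map_mul, map_mul, map_mul, ha]
      congr 1
      refine Fin.cases ?_ (fun v => ?_) u
      · simp [ψ]
      · simp [ψ, mul_div_cancel₀ _ hP]
  have h2 : ψ f ∈ mx (fun u : Fin N => P u.succ / P 0) ^ n :=
    map_mem_pow ψ.toRingHom (fun x hx => by
      rw [mem_mx]
      exact (h1 x).trans hx) hn
  have h3 : ψ f = C (P 0) ^ d * aeval (Fin.cons 1 X : Fin (N + 1) → A N K) f :=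
    scale_Hom hf _ _
  have h4 := Ideal.mul_mem_left _ (C ((P 0)⁻¹ ^ d)) h2
  rwa [h3, ← mul_assoc, ← map_pow, ← map_mul, ← mul_pow, inv_mul_cancel₀ hP, one_pow, map_one,
    one_mul] at h4

end

theorem sI : SI := by
  intro N r K _ P m d hP hS
  let p : Fin r → Fin N → K := fun j u => P j u.succ / P j 0
  let J : Fin r → Ideal (A N K) := fun j => ⊥ ⊔ mx (p j) ^ (m + 1)
  let φ : Le N K d →ₗ[K] (∀ j, A N K ⧸ J j) :=
    (LinearMap.pi fun j => mkL (J j)) ∘ₗ (Le N K d).subtype
  have hφ : Function.Surjective φ := by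
    intro v
    choose u hu using fun j => mkL_surj (J j) (v j)
    obtain ⟨f, hf, hfu⟩ := hS u
    refine ⟨⟨f, mem_Le.2 hf⟩, funext fun j => ?_⟩
    change mkL (J j) f = v j
    rw [← hu j, ← sub_eq_zero, ← map_sub, mkL_eq_zero]
    exact Ideal.mem_sup_right (hfu j)
  have hfin : ∀ j, Module.Finite K (A N K ⧸ J j) := fun j =>
    Module.Finite.of_surjective ((LinearMap.proj j) ∘ₗ φ)
      ((Function.surjective_eval j).comp hφ)
  have h1 : Module.finrank K (∀ j, A N K ⧸ J j) = r * (m + N).choose N := by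
    rw [Module.finrank_pi_fintype]
    have : ∀ j, Module.finrank K (A N K ⧸ J j) = (m + N).choose N := fun j => lf_bot (p j) m
    simp [this]
  have h2 := LinearMap.finrank_range_add_finrank_ker φ
  rw [LinearMap.range_eq_top.2 hφ, finrank_top, h1, finrank_Le] at h2
  let ψ₀ : symb P (m + 1) d →ₗ[K] Le N K d :=
    LinearMap.codRestrict _ ((deh_Brid N K).toLinearMap ∘ₗ (symb P (m + 1) d).subtype)
      fun f => mem_Le.2 (deg_Brid f.2.1)
  let ψ : symb P (m + 1) d →ₗ[K] LinearMap.ker φ :=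
    LinearMap.codRestrict _ ψ₀ fun f => by
      rw [LinearMap.mem_ker]
      funext j
      change mkL (J j) (deh_Brid N K f) = 0
      rw [mkL_eq_zero]
      exact Ideal.mem_sup_right (mem_Brid f.2.1 (P j) _ (hP j) ((Submodule.mem_iInf _).1 f.2.2 j))
  have hψ : Function.Injective ψ := by
    rw [injective_iff_map_eq_zero]
    intro f hf
    have : deh_Brid N K f = 0 := congrArg (fun g : LinearMap.ker φ => ((g : Le N K d) : A N K)) hf
    exact Subtype.ext (inj_Brid f.2.1 this)
  have h3 := LinearMap.finrank_le_finrank_of_injective hψ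
  omega

end Pool.Agent.MP_5499e5_ag.S
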