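import Pool.Agent.MP_5499e5_ag.S.Stm

set_option autoImplicit false

namespace Pool.Agent.MP_5499e5_ag.S

open MvPolynomial

theorem lo_Conv (x M j : ℕ) : (x + (M + 1)).choose (M + 1) + j * (x + 1 + M).choose M ≤
    (j + x + (M + 1)).choose (M + 1) := by
  induction j with
  | zero => simp
  | succ j ih =>
    have e : j + 1 + x + (M + 1) = (j + x + (M + 1)) + 1 := by ring
    have h : (x + 1 + M).choose M ≤ (j + x + (M + 1)).choose M := Nat.choose_le_choose M (by omega)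
    rw [e, Nat.choose_succ_succ', add_mul, one_mul]
    omega

theorem hi_Conv (x M j : ℕ) : (j + x + (M + 1)).choose (M + 1) ≤
    (x + (M + 1)).choose (M + 1) + j * (j + x + M).choose M := by
  induction j with
  | zero => simp
  | succ j ih =>
    have e : j + 1 + x + (M + 1) = (j + x + (M + 1)) + 1 := by ring
    have e' : j + 1 + x + M = j + x + (M + 1) := by ring
    have h : j * (j + x + M).choose M ≤ j * (j + x + (M + 1)).choose M :=
      Nat.mul_le_mul_left j (Nat.choose_le_choose M (by omega))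
    rw [e, e', Nat.choose_succ_succ', add_mul, one_mul]
    omega

theorem pw_Conv (y M : ℕ) : y ^ M ≤ M.factorial * (y + M).choose M ∧
    M.factorial * (y + M).choose M ≤ (y + M) ^ M := by
  rw [← Nat.ascFactorial_eq_factorial_mul_choose]
  exact ⟨(Nat.pow_le_pow_left (Nat.le_succ y) M).trans (Nat.pow_succ_le_ascFactorial (y + 1) M),
    Nat.ascFactorial_le_pow_add y M⟩

theorem mul_Conv (hH : SH) {N r : ℕ} {K : Type} [Field K] (P : Fin r → Fin (N + 1) → K)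
    (n₀ d₀ n d : ℕ) (h : symb P n₀ d₀ ≠ ⊥) :
    Module.finrank K (symb P n d) ≤ Module.finrank K (symb P (n₀ + n) (d₀ + d)) := by
  obtain ⟨F, hF, hF0⟩ := Submodule.exists_mem_ne_zero_of_ne_bot h
  have hf := (hH N K (d₀ + d)).1
  have hfin : Module.Finite K (symb P (n₀ + n) (d₀ + d)) :=
    Submodule.finiteDimensional_of_le (S₂ := Hm N K (d₀ + d)) inf_le_left
  have hinj : Function.Injective (LinearMap.mulLeft K F) := fun x y e => mul_left_cancel₀ hF0 e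
  rw [(Submodule.equivMapOfInjective _ hinj (symb P n d)).finrank_eq]
  refine Submodule.finrank_mono ?_
  rintro _ ⟨G, hG, rfl⟩
  simp only [symb, Submodule.mem_inf, Submodule.mem_iInf, Submodule.restrictScalars_mem,
    mem_homogeneousSubmodule, SetLike.mem_coe, LinearMap.mulLeft_apply] at hF hG ⊢
  refine ⟨hF.1.mul hG.1, fun j => ?_⟩
  rw [pow_add]
  exact Ideal.mul_mem_mul (hF.2 j) (hG.2 j)

theorem nat_Conv (hH : SH) (hA : SA) (hD : SD) {M r : ℕ} {K : Type} [Field K] [CharZero K]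
    (P : Fin r → Fin (M + 1 + 1) → K) (n₀ d₀ a m : ℕ) (h : symb P n₀ d₀ ≠ ⊥)
    (hI : Indep P (n₀ + (m + 1)) (d₀ + (a + m))) :
    r * n₀ * (m + 1) ^ M ≤ d₀ * (d₀ + (a + m) + M) ^ M := by
  have h1 := mul_Conv hH P n₀ d₀ (m + 1) (a + m) h
  have h2 := hA (M + 1) r K P a m
  have h3 := (hD (M + 1) r K P a m).1
  have e : n₀ + (m + 1) + (M + 1) - 1 = n₀ + m + (M + 1) := by omega
  rw [Indep, e] at hI
  have h4 := Nat.mul_le_mul_left r (lo_Conv m M n₀)
  have h5 := hi_Conv (a + m) M d₀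
  rw [mul_add] at h4
  have h6 : r * (n₀ * (m + 1 + M).choose M) ≤ d₀ * (d₀ + (a + m) + M).choose M := by omega
  calc r * n₀ * (m + 1) ^ M ≤ r * n₀ * (M.factorial * (m + 1 + M).choose M) :=
        Nat.mul_le_mul_left _ (pw_Conv (m + 1) M).1
    _ = M.factorial * (r * (n₀ * (m + 1 + M).choose M)) := by ring
    _ ≤ M.factorial * (d₀ * (d₀ + (a + m) + M).choose M) := Nat.mul_le_mul_left _ h6
    _ = d₀ * (M.factorial * (d₀ + (a + m) + M).choose M) := by ring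
    _ ≤ _ := Nat.mul_le_mul_left _ (pw_Conv _ M).2

theorem sF (hH : SH) (hA : SA) (hD : SD) : SF := by
  intro N r K _ _ P t b n₀ d₀ hN ht hI h
  obtain ⟨M, rfl⟩ : ∃ M, N = M + 1 := ⟨N - 1, by omega⟩
  rw [Nat.add_sub_cancel]
  obtain ⟨B, hB⟩ := exists_nat_ge b
  obtain ⟨c, hc⟩ : ∃ c : ℝ, c = t * n₀ + 1 + B + d₀ + M := ⟨_, rfl⟩
  have key : ∀ m : ℕ, (r : ℝ) * n₀ ≤ d₀ * (t + c * (1 / ((m : ℝ) + 1))) ^ M := by
    intro m
    have hm : (0 : ℝ) < (m : ℝ) + 1 := by positivity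
    have p0 : (0 : ℝ) ≤ ((n₀ + (m + 1) : ℕ) : ℝ) := Nat.cast_nonneg _
    have p1 := Nat.le_ceil (t * ((n₀ + (m + 1) : ℕ) : ℝ))
    have p2 := (Nat.ceil_lt_add_one (mul_nonneg (zero_le_one.trans ht) p0)).le
    have p3 : n₀ + (m + 1) ≤ ⌈t * ((n₀ + (m + 1) : ℕ) : ℝ)⌉₊ := by
      have : ((n₀ + (m + 1) : ℕ) : ℝ) ≤ (⌈t * ((n₀ + (m + 1) : ℕ) : ℝ)⌉₊ : ℝ) :=
        (le_mul_of_one_le_left p0 ht).trans p1
      exact_mod_cast this
    obtain ⟨a, ha⟩ : ∃ a, ⌈t * ((n₀ + (m + 1) : ℕ) : ℝ)⌉₊ + B = a + m :=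
      ⟨⌈t * ((n₀ + (m + 1) : ℕ) : ℝ)⌉₊ + B - m, by omega⟩
    have ha' : (⌈t * ((n₀ + (m + 1) : ℕ) : ℝ)⌉₊ : ℝ) + B = a + m := by exact_mod_cast ha
    have d0 : (0 : ℝ) ≤ d₀ := Nat.cast_nonneg _
    have h1 := nat_Conv hH hA hD P n₀ d₀ a m h (hI _ _ (by
      rw [Nat.cast_add d₀, Nat.cast_add a]
      linarith))
    have h2 : (r : ℝ) * n₀ * ((m : ℝ) + 1) ^ M ≤ d₀ * ((d₀ : ℝ) + (a + m) + M) ^ M := by
      exact_mod_cast h1
    have h3 : (d₀ : ℝ) + (a + m) + M ≤ (t + c * (1 / ((m : ℝ) + 1))) * ((m : ℝ) + 1) := by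
      have e : (t + c * (1 / ((m : ℝ) + 1))) * ((m : ℝ) + 1) = t * ((m : ℝ) + 1) + c := by
        field_simp
      rw [e, hc, ← ha']
      push_cast at p2 ⊢
      linarith
    have h4 := pow_le_pow_left₀ (by positivity) h3 M
    rw [mul_pow] at h4
    refine le_of_mul_le_mul_right ?_ (pow_pos hm M)
    rw [mul_assoc (d₀ : ℝ)]
    exact h2.trans (mul_le_mul_of_nonneg_left h4 d0)
  have lim : Filter.Tendsto (fun m : ℕ => (d₀ : ℝ) * (t + c * (1 / ((m : ℝ) + 1))) ^ M)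
      Filter.atTop (nhds ((d₀ : ℝ) * (t + c * 0) ^ M)) :=
    (((tendsto_one_div_add_atTop_nhds_zero_nat.const_mul c).const_add t).pow M).const_mul _
  rw [mul_zero, add_zero] at lim
  exact ge_of_tendsto' lim key

end Pool.Agent.MP_5499e5_ag.S
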