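import Mathlib

set_option autoImplicit false

namespace Pool.Agent.MP_5499e5_ag.S

open MvPolynomial

variable {N r : ℕ} {K : Type} [Field K]

/-- The forms of degree `d` vanishing to order `n` at all the points `P j`: the degree `d` part of
the `n`-th symbolic power. -/
noncomputable def symb (P : Fin r → Fin (N + 1) → K) (n d : ℕ) :
    Submodule K (MvPolynomial (Fin (N + 1)) K) :=
  homogeneousSubmodule (Fin (N + 1)) K d ⊓
    ⨅ j, (RingHom.ker (eval (P j)) ^ n).restrictScalars K

/-- The `n`-fold points impose independent conditions on the forms of degree `d`. -/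
def Indep (P : Fin r → Fin (N + 1) → K) (n d : ℕ) : Prop :=
  Module.finrank K (symb P n d) + r * (n + N - 1).choose N = (d + N).choose N

/-- The Waldschmidt constant. -/
noncomputable def wald (P : Fin r → Fin (N + 1) → K) : ℝ :=
  sInf {x : ℝ | ∃ n d : ℕ, 0 < n ∧ symb P n d ≠ ⊥ ∧ x = (d : ℝ) / n}

/-- The asymptotic regularity. -/
noncomputable def areg (P : Fin r → Fin (N + 1) → K) : ℝ :=
  sInf {t : ℝ | ∃ b : ℝ, ∀ n d : ℕ, t * n + b ≤ d → Indep P n d}

end Pool.Agent.MP_5499e5_ag.S
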