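import Pool.Agent.MP_5499e5_ag.S.Defs

set_option autoImplicit false

namespace Pool.Agent.MP_5499e5_ag.S

/-- The volume of the class `u H - E`: the asymptotic Hilbert function of the symbolic powers at
slope `u`. -/
noncomputable def hvol {N r : ℕ} {K : Type} [Field K] (P : Fin r → Fin (N + 1) → K) (u : ℝ) : ℝ :=
  Filter.limsup (fun n : ℕ =>
    (N.factorial : ℝ) * Module.finrank K (symb P n ⌊u * n⌋₊) / (n : ℝ) ^ N) Filter.atTop

end Pool.Agent.MP_5499e5_ag.S
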