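import Pool.Agent.MP_5499e5_ag.S.StmW

set_option autoImplicit false

namespace Pool.Agent.MP_5499e5_ag.S

open MvPolynomial Pool.Agent.MP_5499e5_ag.W

section aux

variable {N r : ℕ} {K : Type} [Field K]

/-- interpolation of jets modulo an ideal -/
def Ap_Nak (p : Fin r → Fin N → K) (J : Ideal (A N K)) (n d : ℕ) : Prop :=
  ∀ u : Fin r → A N K, ∃ f : A N K, f.totalDegree ≤ d ∧ ∀ i, f - u i ∈ J ⊔ mx (p i) ^ n

theorem zero_Nak (p : Fin r → Fin N → K) (J : Ideal (A N K)) (d : ℕ) : Ap_Nak p J 0 d :=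
  fun _ => ⟨0, by simp, fun _ => by simp⟩

theorem glue_Nak {p : Fin r → Fin N → K} {J J' : Ideal (A N K)} {a : A N K} {n n' d d' : ℕ}
    (h1 : Ap_Nak p (J ⊔ Ideal.span {a}) n d) (h2 : Ap_Nak p J' n' d')
    (hd : a.totalDegree + d' ≤ d)
    (hw : ∀ i, ∀ w ∈ J' ⊔ mx (p i) ^ n', a * w ∈ J ⊔ mx (p i) ^ n) : Ap_Nak p J n d := by
  intro u
  obtain ⟨f₁, a1, a2⟩ := h1 u
  have h3 : ∀ i, ∃ v, f₁ - u i - v * a ∈ J ⊔ mx (p i) ^ n := by
    intro i
    obtain ⟨y, hy, m, hm, e⟩ := Submodule.mem_sup.1 (a2 i)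
    obtain ⟨j, hj, z, hz, rfl⟩ := Submodule.mem_sup.1 hy
    obtain ⟨v, rfl⟩ := Ideal.mem_span_singleton'.1 hz
    refine ⟨v, ?_⟩
    rw [← e, show j + v * a + m - v * a = j + m by ring]
    exact Submodule.add_mem_sup hj hm
  choose v hv using h3
  obtain ⟨f₂, b1, b2⟩ := h2 v
  refine ⟨f₁ - a * f₂, (totalDegree_sub _ _).trans (max_le a1 ((totalDegree_mul _ _).trans
    (by omega))), fun i => ?_⟩
  rw [show f₁ - a * f₂ - u i = (f₁ - u i - v i * a) - a * (f₂ - v i) by ring]
  exact sub_mem (hv i) (hw i _ (b2 i))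

theorem red_Nak {J : Ideal (A N K)} (h : Dim J 0) :
    ∃ b : ℕ, ∀ f : A N K, ∃ g : A N K, g.totalDegree ≤ b ∧ g - f ∈ J := by
  obtain ⟨E, hE⟩ := h
  obtain ⟨s₀, hs₀⟩ := Filter.eventually_atTop.1 (hE 1 one_pos)
  have hb : BddAbove (Set.range (hf J)) := by
    refine ⟨⌈E + 1⌉₊, ?_⟩
    rintro _ ⟨t, rfl⟩
    have a1 := hs₀ (max t s₀) (le_max_right _ _)
    simp only [Nat.factorial_zero, Nat.cast_one, mul_one, pow_zero] at a1
    have a2 : (hf J (max t s₀) : ℝ) ≤ (⌈E + 1⌉₊ : ℝ) := a1.trans (Nat.le_ceil _)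
    exact (hf_mono J (le_max_left t s₀)).trans (by exact_mod_cast a2)
  obtain ⟨b, hb'⟩ := Nat.sSup_mem (Set.range_nonempty (hf J)) hb
  refine ⟨b, fun f => ?_⟩
  have a1 : (Le N K b).map (mkL J) = (Le N K (max b f.totalDegree)).map (mkL J) := by
    refine Submodule.eq_of_le_of_finrank_le (Submodule.map_mono (Le_mono (le_max_left _ _))) ?_
    have a2 : hf J (max b f.totalDegree) ≤ hf J b := by
      rw [hb']; exact le_csSup hb ⟨_, rfl⟩
    exact a2
  have a3 : mkL J f ∈ (Le N K b).map (mkL J) := by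
    rw [a1]; exact ⟨f, mem_Le.2 (le_max_right _ _), rfl⟩
  obtain ⟨g, hg, e⟩ := a3
  exact ⟨g, mem_Le.1 hg, Ideal.Quotient.eq.1 e⟩

theorem crt_Nak {p : Fin r → Fin N → K} (hp : Function.Injective p) (n : ℕ)
    (u : Fin r → A N K) : ∃ f : A N K, ∀ i, f - u i ∈ mx (p i) ^ n := by
  refine Ideal.exists_forall_sub_mem_ideal (I := fun i => mx (p i) ^ n) ?_ u
  intro i j hij
  refine IsCoprime.pow (Ideal.isCoprime_iff_sup_eq.2
    ((mx_isMaximal (p i)).coprime_of_ne (mx_isMaximal (p j)) fun h => hij (hp ?_)))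
  funext l
  have a1 := X_sub_mem_mx (p i) l
  rw [h, mem_mx, map_sub, eval_X, eval_C] at a1
  exact (sub_eq_zero.1 a1).symm

end aux

theorem sN (h1 : S_kl) (h2 : S_sec) (h3 : S_tb) (h4 : S_tbdim) (h5 : S_tbdeg) : SN := by
  intro N r K _ _ p τ ρ hp hτ hτρ hCB
  have hρ : 0 < ρ := lt_of_le_of_lt hτ hτρ
  have key : ∀ J : Ideal (A N K), ∃ b : ℝ, ∀ n d : ℕ, ρ * n + b ≤ d → Ap_Nak p J n d := by
    intro J
    induction J using IsNoetherian.induction with
    | _ J ih =>
      have hlt : ∀ a : A N K, a ∉ J → J < J ⊔ Ideal.span {a} := fun a ha =>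
        lt_of_le_of_ne le_sup_left fun h => ha (by
          rw [h]; exact Ideal.mem_sup_right (Ideal.mem_span_singleton_self a))
      by_cases c1 : J = ⊤
      · exact ⟨0, fun n d _ u => ⟨0, by simp, fun i => by simp [c1]⟩⟩
      by_cases c2 : Ideal.IsPrime J
      · obtain ⟨S, hS⟩ := h3 N K J c2
        have hD := h4 N K J S c2 hS
        have hG := h5 N K J S hS hD
        rcases Nat.eq_zero_or_pos S.card with h0 | h0
        · rw [h0] at hD
          obtain ⟨b, hb⟩ := red_Nak hD
          refine ⟨b, fun n d hd u => ?_⟩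
          obtain ⟨f, hf'⟩ := crt_Nak hp n u
          obtain ⟨g, g1, g2⟩ := hb f
          have a1 : (b : ℝ) ≤ d := le_trans (le_add_of_nonneg_left (by positivity)) hd
          refine ⟨g, g1.trans (by exact_mod_cast a1), fun i => ?_⟩
          rw [show g - u i = (g - f) + (f - u i) by ring]
          exact Submodule.add_mem_sup g2 (hf' i)
        · have a1 := h1 N K (Fin r) Finset.univ p τ hp.injOn hτ hCB _ J hD
          have a2 : τ ^ S.card * dg S.card J < ρ ^ S.card * dg S.card J :=
            mul_lt_mul_of_pos_right (pow_lt_pow_left₀ hτρ hτ h0.ne') (by linarith)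
          obtain ⟨n₀, ⟨g, g1, g2, g3⟩, hn₀⟩ := ((h2 N K (Fin r) Finset.univ p _ J ρ hD hρ
            (a1.trans_lt a2)).and (Filter.eventually_ge_atTop 1)).exists
          obtain ⟨b, hb⟩ := ih _ (hlt g g1)
          refine ⟨max b g.totalDegree, fun n => ?_⟩
          induction n using Nat.strong_induction_on with
          | _ n ihn =>
            intro d hd
            rcases Nat.eq_zero_or_pos n with rfl | hn
            · exact zero_Nak p J d
            have b0 : (0 : ℝ) ≤ ρ * n := by positivity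
            have b1 : g.totalDegree ≤ d := by
              have : (g.totalDegree : ℝ) ≤ d := by
                linarith [le_max_right b (g.totalDegree : ℝ)]
              exact_mod_cast this
            refine glue_Nak (J' := J) (n' := n - n₀) (d' := d - g.totalDegree)
              (hb n d (by linarith [le_max_left b (g.totalDegree : ℝ)])) ?_ (by omega) ?_
            · rcases le_total n n₀ with h | h
              · rw [Nat.sub_eq_zero_of_le h]; exact zero_Nak p J _
              · refine ihn _ (by omega) _ ?_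
                rw [Nat.cast_sub h, Nat.cast_sub b1]
                linarith
            · intro i w hw
              obtain ⟨j, hj, m, hm, rfl⟩ := Submodule.mem_sup.1 (g3 i (Finset.mem_univ i))
              obtain ⟨j', hj', m', hm', rfl⟩ := Submodule.mem_sup.1 hw
              rw [show (j + m) * (j' + m') = (j * (j' + m') + m * j') + m * m' by ring]
              refine Submodule.add_mem_sup
                (add_mem (Ideal.mul_mem_right _ _ hj) (Ideal.mul_mem_left _ _ hj'))
                (Ideal.pow_le_pow_right (show n ≤ n₀ + (n - n₀) by omega) ?_)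
              rw [pow_add]
              exact Ideal.mul_mem_mul hm hm'
      · obtain ⟨a, ha, a', ha', hab⟩ := (Ideal.not_isPrime_iff.1 c2).resolve_left c1
        obtain ⟨b₁, hb₁⟩ := ih _ (hlt a ha)
        obtain ⟨b₂, hb₂⟩ := ih (col J a) (lt_of_le_of_ne (le_col J a) fun h => ha' (by
          rw [h]; exact mem_col.2 (by rw [mul_comm]; exact hab)))
        refine ⟨max b₁ (max b₂ 0 + a.totalDegree), fun n d hd => ?_⟩
        have b0 : (0 : ℝ) ≤ ρ * n := by positivity
        have b1 := le_max_left b₁ (max b₂ 0 + (a.totalDegree : ℝ))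
        have b2 := le_max_right b₁ (max b₂ 0 + (a.totalDegree : ℝ))
        have b3 := le_max_left b₂ 0
        have b4 := le_max_right b₂ 0
        have b5 : a.totalDegree ≤ d := by
          have : (a.totalDegree : ℝ) ≤ d := by linarith
          exact_mod_cast this
        refine glue_Nak (d' := d - a.totalDegree) (hb₁ n d (by linarith))
          (hb₂ n _ (by rw [Nat.cast_sub b5]; linarith)) (by omega) ?_
        intro i w hw
        obtain ⟨j, hj, m, hm, rfl⟩ := Submodule.mem_sup.1 hw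
        rw [mul_add, mul_comm a j]
        exact Submodule.add_mem_sup (mem_col.1 hj) (Ideal.mul_mem_left _ _ hm)
  obtain ⟨b, hb⟩ := key ⊥
  refine ⟨b, fun n d hd u => ?_⟩
  obtain ⟨f, a1, a2⟩ := hb n d hd u
  exact ⟨f, a1, fun i => by simpa using a2 i⟩

end Pool.Agent.MP_5499e5_ag.S
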