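import Pool.Agent.MP_5499e5_ag.S.Stm

set_option autoImplicit false

namespace Pool.Agent.MP_5499e5_ag.S

open MvPolynomial

/-- points on a line -/
def pt_Sharp (N : ℕ) {K : Type} [Field K] (t : K) : Fin (N + 1) → K :=
  fun u => if u.val = 0 then 1 else if u.val = 1 then t else 0

theorem lin_Sharp (n : ℕ) {K : Type} [Field K] (t : K) :
    lin (pt_Sharp (n + 1) t) = X 0 + C t * X 1 := by
  unfold lin
  rw [Fin.sum_univ_succ, Fin.sum_univ_succ]
  simp [pt_Sharp]

theorem hom_Sharp {N : ℕ} {K : Type} [Field K] (p : Fin (N + 1) → K) :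
    (lin p).IsHomogeneous 1 :=
  IsHomogeneous.sum _ _ _ fun u _ => (isHomogeneous_X K u).C_mul _

theorem rel_Sharp (hH : SH) (hD : SD) {r : ℕ} {K : Type} [Field K] (P : Fin r → Fin 2 → K)
    {a m : ℕ} (h : a + m + 1 < r * (m + 1)) : Rel P a m := by
  by_contra hn
  have h1 := (hD 1 r K P a m).2.1.2 hn
  have h2 : dual P a m ≤ Hm 1 K (a + m) := iSup_le fun j => by
    rintro _ ⟨g, hg, rfl⟩
    have h3 := ((hom_Sharp (P j)).pow a).mul hg
    rwa [one_mul] at h3
  have := (hH 1 K (a + m)).1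
  have h3 := Submodule.finrank_mono h2
  rw [h1, (hH 1 K (a + m)).2, Nat.choose_one_right, Nat.choose_one_right] at h3
  omega

theorem sG (hH : SH) (hD : SD) : SG := by
  intro N r K _ _ hN
  obtain ⟨n, rfl⟩ : ∃ n, N = n + 2 := ⟨N - 2, by omega⟩
  refine ⟨fun j => pt_Sharp (n + 2) ((j : ℕ) : K), ⟨fun i h => ?_, fun i j hij => ?_⟩, ?_,
    fun a m h => ?_⟩
  · simpa [pt_Sharp] using congrFun h 0
  · refine LinearIndependent.pair_iff.2 fun s t h => ?_
    have h0 : s + t = 0 := by simpa [pt_Sharp] using congrFun h 0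
    have h1 : s * (i : ℕ) + t * (j : ℕ) = 0 := by simpa [pt_Sharp] using congrFun h 1
    have h2 : ((i : ℕ) : K) - (j : ℕ) ≠ 0 := fun e =>
      hij (Fin.ext (Nat.cast_injective (sub_eq_zero.1 e)))
    have h3 : s = 0 := (mul_eq_zero.1 (show s * (((i : ℕ) : K) - (j : ℕ)) = 0 by
      linear_combination h1 - ((j : ℕ) : K) * h0)).resolve_right h2
    exact ⟨h3, by simpa [h3] using h0⟩
  · refine (Submodule.ne_bot_iff _).2 ⟨X ⟨2, by omega⟩, ⟨isHomogeneous_X K _, ?_⟩, X_ne_zero _⟩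
    refine (Submodule.mem_iInf _).2 fun j => ?_
    rw [pow_one, Submodule.restrictScalars_mem, RingHom.mem_ker, eval_X]
    simp [pt_Sharp]
  · obtain ⟨g, g1, g2, g3⟩ := rel_Sharp hH hD (fun j : Fin r => pt_Sharp 1 ((j : ℕ) : K)) h
    have le : 1 + 1 ≤ n + 2 + 1 := by omega
    have inj := rename_injective (R := K) (Fin.castLE le) (Fin.castLE_injective le)
    refine ⟨fun j => rename (Fin.castLE le) (g j), fun j => (g1 j).rename_isHomogeneous,
      fun h0 => g2 (funext fun j => inj ((congrFun h0 j).trans (map_zero _).symm)), ?_⟩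
    have h4 := congrArg (rename (Fin.castLE le)) g3
    rw [map_sum, map_zero] at h4
    rw [← h4]
    refine Finset.sum_congr rfl fun j _ => ?_
    rw [map_mul, map_pow, lin_Sharp (n + 1), lin_Sharp 0, map_add, map_mul, rename_X, rename_X,
      rename_C]
    rfl

end Pool.Agent.MP_5499e5_ag.S
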