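import Pool.Agent.MP_5499e5_ag.S.Stm
import Pool.Agent.MP_5499e5_ag.W.Defs

set_option autoImplicit false

namespace Pool.Agent.MP_5499e5_ag.S

open MvPolynomial Pool.Agent.MP_5499e5_ag.W

/-- jets of order `n` at the affine points `p i` are interpolated in degree `d` -/
def Sur {N r : ℕ} {K : Type} [Field K] (p : Fin r → Fin N → K) (n d : ℕ) : Prop :=
  ∀ u : Fin r → A N K, ∃ f : A N K, f.totalDegree ≤ d ∧ ∀ i, f - u i ∈ mx (p i) ^ n

def SN : Prop := ∀ (N r : ℕ) (K : Type) [Field K] [CharZero K] (p : Fin r → Fin N → K) (τ ρ : ℝ),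
  Function.Injective p → 0 ≤ τ → τ < ρ → CB Finset.univ p τ →
  ∃ b : ℝ, ∀ n d : ℕ, ρ * n + b ≤ d → Sur p n d

def SI : Prop := ∀ (N r : ℕ) (K : Type) [Field K] (P : Fin r → Fin (N + 1) → K) (m d : ℕ),
  (∀ j, P j 0 ≠ 0) → Sur (fun j (u : Fin N) => P j u.succ / P j 0) (m + 1) d →
  Module.finrank K (symb P (m + 1) d) + r * (m + N).choose N ≤ (d + N).choose N

end Pool.Agent.MP_5499e5_ag.S
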